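import Pool.Agent.H599R3.SV.Fin

/-!
# Every finitely presented solvable diagram group is abelian

Diagram groups (definitions in `H540DG`):

* `Pres A` is a semigroup presentation over the alphabet `A`: a set of relations `(u, v)` with
  `u`, `v` nonempty words.
* `OE P` are the oriented edges `(a, r, s, c)` of the Squier complex: they lead from `a u c` to
  `a v c` if `s = true`, and from `a v c` to `a u c` if `s = false`, where `r = (u, v)`.
* `IsPath w L w'`: the list `L` of oriented edges is an edge path from `w` to `w'`.
* `Elem P`: elementary homotopies of edge paths, that is deletion of a backtrack, and replacing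
  one half of the boundary of a square by the other half.
* `DiagramGroup P w`: closed edge paths at `w` modulo elementary homotopies, with concatenation
  (the fundamental group of the Squier complex at `w`).

`Group.IsFinitelyPresented` and `Group.IsSolvable` are the definitions of Mathlib.
-/

set_option autoImplicit false

namespace Pool.Agent.Results.MP_f61096_al.SolvAbelian

open H540DG Pool.Agent.H599R3.SV

/-- **Main theorem.** Every finitely presented solvable diagram group is abelian. -/
theorem result {A : Type} (P : Pres A) (w : List A) {G : Type} [Group G]
    (e : G ≃* DiagramGroup P w) (hfp : Group.IsFinitelyPresented G)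
    (hs : Group.IsSolvable G) : ∀ x y : G, x * y = y * x := by
  have e' : G ≃* Dg P w := e.trans (dgEquiv P w)
  have hfp' : FinPres (Dg P w) := by
    apply FinPres.congr e'
    obtain ⟨n, φ, h1, R, h2, h3⟩ := hfp.out
    exact ⟨n, φ, h1, R, h2, h3⟩
  have hs' : Group.IsSolvable (Dg P w) :=
    Group.isSolvable_of_isSolvable_injective (f := (e'.symm : Dg P w →* G)) e'.symm.injective
  intro x y
  apply e'.injective
  rw [map_mul, map_mul]
  exact main hfp' hs' (e' x) (e' y)

end Pool.Agent.Results.MP_f61096_al.SolvAbelian
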